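import Mathlib

/-!
# MP_5dc1dd_co: irreducible double tilings by congruent parallelograms and by congruent triangles

The plane is `ℂ`.  We give an irreducible multiple tiling of density `2` of the plane by `1 × 3`
rectangles, and one by the right triangles with legs `1` and `3`.  Twenty `1 × 3` rectangles cover
a `6 × 5` rectangle exactly twice, in such a way that five of them form an odd cycle of
overlapping rectangles; the pattern is repeated periodically.
-/

open Complex Set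

namespace Pool.Agent.Q238.DT

/-- A closed (non-degenerate) parallelogram, with vertices `a, a + u, a + u + v, a + v`. -/
def IsParallelogram (P : Set ℂ) : Prop :=
  ∃ a u v : ℂ, LinearIndependent ℝ ![u, v] ∧
    P = {z | ∃ s t : ℝ, 0 ≤ s ∧ s ≤ 1 ∧ 0 ≤ t ∧ t ≤ 1 ∧ z = a + s * u + t * v}

/-- A closed (non-degenerate) triangle, with vertices `a, a + u, a + v`. -/
def IsTriangle (P : Set ℂ) : Prop :=
  ∃ a u v : ℂ, LinearIndependent ℝ ![u, v] ∧
    P = {z | ∃ s t : ℝ, 0 ≤ s ∧ 0 ≤ t ∧ s + t ≤ 1 ∧ z = a + s * u + t * v}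

/-- The family `T` of tiles is a multiple tiling of density `d`: every point of the plane that lies
on the boundary of no tile lies in the interiors of exactly `d` tiles. -/
def IsMultipleTiling {ι : Type} (T : ι → Set ℂ) (d : ℕ) : Prop :=
  ∀ x : ℂ, (∀ i, x ∉ frontier (T i)) → {i | x ∈ interior (T i)}.encard = d

/-- The family `T` is monohedral with prototile `P`: every tile is the image of `P` under an
isometry of the plane. -/
def IsMonohedral {ι : Type} (T : ι → Set ℂ) (P : Set ℂ) : Prop :=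
  ∀ i, ∃ f : ℂ ≃ᵢ ℂ, f '' P = T i

/-- The family `T` is reducible: it can be split into two or more non-empty subfamilies, each of
which is a multiple tiling of some density. -/
def IsReducible {ι : Type} (T : ι → Set ℂ) : Prop :=
  ∃ (m : ℕ) (c : ι → Fin m), 2 ≤ m ∧ Function.Surjective c ∧
    ∀ j : Fin m, ∃ e : ℕ, IsMultipleTiling (fun i : {i : ι // c i = j} => T i) e

/-! ### A criterion for irreducibility -/

theorem irreducible_of {ι : Type} (T : ι → Set ℂ) (h2 : IsMultipleTiling T 2)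
    (hpt : ∀ i, ∃ z, (∀ j, z ∉ frontier (T j)) ∧ z ∈ interior (T i))
    (t : Fin 5 → ι) (ht : ∀ r, t r ≠ t (r + 1))
    (z : Fin 5 → ℂ) (hz : ∀ r j, z r ∉ frontier (T j))
    (hz1 : ∀ r, z r ∈ interior (T (t r))) (hz2 : ∀ r, z r ∈ interior (T (t (r + 1)))) :
    ¬ IsReducible T := by
  rintro ⟨m, c, hm, hc, hj⟩
  -- number of tiles of a class containing a generic point
  have hcount : ∀ (j : Fin m) (e : ℕ), IsMultipleTiling (fun i : {i : ι // c i = j} => T i) e →
      ∀ x : ℂ, (∀ i, x ∉ frontier (T i)) →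
        ({i | x ∈ interior (T i)} ∩ {i | c i = j}).encard = e := by
    intro j e he x hx
    have h1 := he x (fun i => hx i)
    rw [← h1, ← (Subtype.val_injective.injOn).encard_image]
    congr 1
    ext i
    simp only [mem_inter_iff, mem_ofPred_eq, mem_image, Subtype.exists, exists_and_right,
      exists_eq_right]
    constructor
    · rintro ⟨h, h'⟩
      exact ⟨h', h⟩
    · rintro ⟨h, h'⟩
      exact ⟨h', h⟩
  choose e he using hj
  have hpos : ∀ j, 1 ≤ e j := by
    intro j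
    obtain ⟨i, rfl⟩ := hc j
    obtain ⟨x, hx, hxi⟩ := hpt i
    have h := hcount _ _ (he (c i)) x hx
    have hne : ({i' | x ∈ interior (T i')} ∩ {i' | c i' = c i}).encard ≠ 0 := by
      rw [Set.encard_ne_zero]
      exact ⟨i, hxi, rfl⟩
    rw [h] at hne
    have : e (c i) ≠ 0 := by
      intro h0
      apply hne
      rw [h0]
      rfl
    omega
  -- two different classes
  set j0 : Fin m := ⟨0, by omega⟩ with hj0
  set j1 : Fin m := ⟨1, by omega⟩ with hj1
  have hne01 : j0 ≠ j1 := by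
    intro h
    have := congrArg Fin.val h
    simp [hj0, hj1] at this
  -- `e j0 = 1`
  have hsum : ∀ x : ℂ, (∀ i, x ∉ frontier (T i)) →
      ({i | x ∈ interior (T i)} ∩ {i | c i = j0}).encard = 1 := by
    intro x hx
    have h0 := hcount _ _ (he j0) x hx
    have h1 := hcount _ _ (he j1) x hx
    have hd : Disjoint ({i | x ∈ interior (T i)} ∩ {i | c i = j0})
        ({i | x ∈ interior (T i)} ∩ {i | c i = j1}) := by
      rw [Set.disjoint_left]
      rintro i ⟨_, h⟩ ⟨_, h'⟩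
      exact hne01 (h.symm.trans h')
    have hsub : ({i | x ∈ interior (T i)} ∩ {i | c i = j0}) ∪
        ({i | x ∈ interior (T i)} ∩ {i | c i = j1}) ⊆ {i | x ∈ interior (T i)} := by
      rintro i (h | h)
      · exact h.1
      · exact h.1
    have hle := Set.encard_le_encard hsub
    rw [Set.encard_union_eq hd, h0, h1, h2 x hx] at hle
    have hle' : e j0 + e j1 ≤ 2 := by exact_mod_cast hle
    have := hpos j0
    have := hpos j1
    have he0 : e j0 = 1 := by omega
    rw [h0, he0]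
    rfl
  -- along the cycle, the class `j0` alternates
  have halt : ∀ r, (c (t r) = j0 ↔ ¬ c (t (r + 1)) = j0) := by
    intro r
    obtain ⟨a, ha⟩ := Set.encard_eq_one.1 (hsum (z r) (hz r))
    have htwo : {i | z r ∈ interior (T i)}.encard = 2 := h2 (z r) (hz r)
    obtain ⟨p, q, hpq, hset⟩ := Set.encard_eq_two.1 htwo
    have m1 : t r ∈ ({p, q} : Set ι) := by
      rw [← hset]; exact hz1 r
    have m2 : t (r + 1) ∈ ({p, q} : Set ι) := by
      rw [← hset]; exact hz2 r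
    have ma : a ∈ ({p, q} : Set ι) ∩ {i | c i = j0} := by
      rw [← hset, ha]; rfl
    have hall : ∀ i, i ∈ ({p, q} : Set ι) → c i = j0 → i = a := by
      intro i hi hci
      have : i ∈ ({p, q} : Set ι) ∩ {i | c i = j0} := ⟨hi, hci⟩
      rw [← hset, ha] at this
      exact this
    have hne := ht r
    obtain ⟨ma1, ma2⟩ := ma
    constructor
    · intro h h'
      exact hne ((hall _ m1 h).trans (hall _ m2 h').symm)
    · intro h
      simp only [mem_insert_iff, mem_singleton_iff] at m1 m2 ma1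
      have ma2' : c a = j0 := ma2
      have hne2 : t (r + 1) ≠ a := by
        intro h'
        exact h (h' ▸ ma2')
      have : t r = a := by
        rcases m1 with m1 | m1 <;> rcases m2 with m2 | m2 <;> rcases ma1 with ma1 | ma1
        · exact absurd (m1.trans m2.symm) hne
        · exact absurd (m1.trans m2.symm) hne
        · exact m1.trans ma1.symm
        · exact absurd (m2.trans ma1.symm) hne2
        · exact absurd (m2.trans ma1.symm) hne2
        · exact m1.trans ma1.symm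
        · exact absurd (m1.trans m2.symm) hne
        · exact absurd (m1.trans m2.symm) hne
      rw [this]
      exact ma2'
  have a0 := halt 0
  have a1 := halt 1
  have a2 := halt 2
  have a3 := halt 3
  have a4 := halt 4
  have e1 : (0 : Fin 5) + 1 = 1 := rfl
  have e2 : (1 : Fin 5) + 1 = 2 := rfl
  have e3 : (2 : Fin 5) + 1 = 3 := rfl
  have e4 : (3 : Fin 5) + 1 = 4 := rfl
  have e5 : (4 : Fin 5) + 1 = 0 := rfl
  rw [e1] at a0
  rw [e2] at a1
  rw [e3] at a2
  rw [e4] at a3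
  rw [e5] at a4
  tauto

/-! ### The pattern -/

/-- left ends of the twenty rectangles -/
def x0 : Fin 20 → ℤ := ![0, 2, 3, 0, 3, 2, 0, 3, 0, 2, 3, 0, 1, 5, 2, 3, 4, 0, 1, 5]
/-- lower ends of the twenty rectangles -/
def y0 : Fin 20 → ℤ := ![0, 0, 0, 1, 1, 2, 3, 3, 4, 4, 4, 0, 0, 0, 1, 1, 1, 2, 2, 2]
/-- widths -/
def wd : Fin 20 → ℤ := ![3, 3, 3, 3, 3, 3, 3, 3, 3, 3, 3, 1, 1, 1, 1, 1, 1, 1, 1, 1]
/-- heights -/
def ht : Fin 20 → ℤ := ![1, 1, 1, 1, 1, 1, 1, 1, 1, 1, 1, 3, 3, 3, 3, 3, 3, 3, 3, 3]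

/-- the `k`-th rectangle covers the cell `(i, j)` -/
def cov (k : Fin 20) (i j : ℤ) : Prop := x0 k ≤ i ∧ i < x0 k + wd k ∧ y0 k ≤ j ∧ j < y0 k + ht k

instance (k : Fin 20) (i j : ℤ) : Decidable (cov k i j) := by unfold cov; infer_instance

theorem dims (k : Fin 20) : (wd k = 3 ∧ ht k = 1) ∨ (wd k = 1 ∧ ht k = 3) := by
  revert k; decide

theorem inside (k : Fin 20) : 0 ≤ x0 k ∧ x0 k + wd k ≤ 6 ∧ 0 ≤ y0 k ∧ y0 k + ht k ≤ 5 := by
  revert k; decide

theorem count2 (i j : ℤ) (hi : 0 ≤ i) (hi' : i < 6) (hj : 0 ≤ j) (hj' : j < 5) :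
    (Finset.univ.filter (fun k => cov k i j)).card = 2 := by
  interval_cases i <;> interval_cases j <;> decide

/-! ### Rectangles -/

/-- the rectangle `[a, a + w] × [b, b + h]` -/
def rect (a b w h : ℤ) : Set ℂ := Icc (a : ℝ) (a + w) ×ℂ Icc (b : ℝ) (b + h)

theorem mem_rect {a b w h : ℤ} {z : ℂ} : z ∈ rect a b w h ↔
    (a : ℝ) ≤ z.re ∧ z.re ≤ a + w ∧ (b : ℝ) ≤ z.im ∧ z.im ≤ b + h := by
  unfold rect
  rw [mem_reProdIm]
  simp only [mem_Icc]
  tauto

theorem mem_interior_rect {a b w h : ℤ} {z : ℂ} : z ∈ interior (rect a b w h) ↔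
    (a : ℝ) < z.re ∧ z.re < a + w ∧ (b : ℝ) < z.im ∧ z.im < b + h := by
  unfold rect
  rw [interior_reProdIm, interior_Icc, interior_Icc, mem_reProdIm]
  simp only [mem_Ioo]
  tauto

theorem isClosed_rect (a b w h : ℤ) : IsClosed (rect a b w h) :=
  isClosed_Icc.reProdIm isClosed_Icc

/-- the points used as test points -/
def Test (z : ℂ) : Prop := ∃ m n s : ℤ, (s = 1 ∨ s = -1) ∧ z.re = m + s / 10 ∧ z.im = n + s / 10

/-- the family of rectangles -/
def TR (i : ℤ × ℤ × Fin 20) : Set ℂ :=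
  rect (6 * i.1 + x0 i.2.2) (5 * i.2.1 + y0 i.2.2) (wd i.2.2) (ht i.2.2)

/-- the rectangles of the family containing a given cell -/
theorem cell_iff (u v : ℤ) (k : Fin 20) (z : ℂ) :
    (((6 * u + x0 k : ℤ) : ℝ) ≤ z.re ∧ z.re < ((6 * u + x0 k : ℤ) : ℝ) + wd k ∧
      ((5 * v + y0 k : ℤ) : ℝ) ≤ z.im ∧ z.im < ((5 * v + y0 k : ℤ) : ℝ) + ht k) ↔
    (u = ⌊z.re⌋ / 6 ∧ v = ⌊z.im⌋ / 5 ∧ cov k (⌊z.re⌋ % 6) (⌊z.im⌋ % 5)) := by
  have h1 : ((6 * u + x0 k : ℤ) : ℝ) ≤ z.re ↔ 6 * u + x0 k ≤ ⌊z.re⌋ := Int.le_floor.symm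
  have h2 : z.re < ((6 * u + x0 k : ℤ) : ℝ) + wd k ↔ ⌊z.re⌋ < 6 * u + x0 k + wd k := by
    rw [Int.floor_lt]; push_cast; rfl
  have h3 : ((5 * v + y0 k : ℤ) : ℝ) ≤ z.im ↔ 5 * v + y0 k ≤ ⌊z.im⌋ := Int.le_floor.symm
  have h4 : z.im < ((5 * v + y0 k : ℤ) : ℝ) + ht k ↔ ⌊z.im⌋ < 5 * v + y0 k + ht k := by
    rw [Int.floor_lt]; push_cast; rfl
  rw [h1, h2, h3, h4]
  obtain ⟨i1, i2, i3, i4⟩ := inside k
  unfold cov
  constructor
  · rintro ⟨g1, g2, g3, g4⟩
    refine ⟨by omega, by omega, by omega, by omega, by omega, by omega⟩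
  · rintro ⟨g1, g2, g3, g4, g5, g6⟩
    refine ⟨by omega, by omega, by omega, by omega⟩

theorem TR_interior_imp {i : ℤ × ℤ × Fin 20} {z : ℂ} (h : z ∈ interior (TR i)) :
    i.1 = ⌊z.re⌋ / 6 ∧ i.2.1 = ⌊z.im⌋ / 5 ∧ cov i.2.2 (⌊z.re⌋ % 6) (⌊z.im⌋ % 5) := by
  rw [TR, mem_interior_rect] at h
  exact (cell_iff _ _ _ _).1 ⟨h.1.le, h.2.1, h.2.2.1.le, h.2.2.2⟩

theorem TR_mem_of {i : ℤ × ℤ × Fin 20} {z : ℂ}
    (h : i.1 = ⌊z.re⌋ / 6 ∧ i.2.1 = ⌊z.im⌋ / 5 ∧ cov i.2.2 (⌊z.re⌋ % 6) (⌊z.im⌋ % 5)) :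
    z ∈ TR i := by
  have := (cell_iff _ _ _ _).2 h
  rw [TR, mem_rect]
  exact ⟨this.1, this.2.1.le, this.2.2.1, this.2.2.2.le⟩

theorem mem_interior_of {s : Set ℂ} (hs : IsClosed s) {z : ℂ} (h : z ∈ s) (h' : z ∉ frontier s) :
    z ∈ interior s := by
  rw [hs.frontier_eq] at h'
  by_contra hc
  exact h' ⟨h, hc⟩

theorem encard_cells (p q : ℤ) :
    ((fun k : Fin 20 => (p / 6, q / 5, k)) '' {k | cov k (p % 6) (q % 5)}).encard = 2 := by
  have hinj : Function.Injective (fun k : Fin 20 => (p / 6, q / 5, k)) := by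
    intro a b h
    simpa using h
  rw [hinj.injOn.encard_image]
  have : {k | cov k (p % 6) (q % 5)} =
      ((Finset.univ.filter (fun k => cov k (p % 6) (q % 5)) : Finset (Fin 20)) : Set (Fin 20)) := by
    ext k; simp
  rw [this, Set.encard_coe_eq_coe_finsetCard,
    count2 _ _ (Int.emod_nonneg _ (by norm_num)) (Int.emod_lt_of_pos _ (by norm_num))
      (Int.emod_nonneg _ (by norm_num)) (Int.emod_lt_of_pos _ (by norm_num))]
  rfl

theorem TR_tiling : IsMultipleTiling TR 2 := by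
  intro x hx
  have : {i | x ∈ interior (TR i)} =
      (fun k : Fin 20 => (⌊x.re⌋ / 6, ⌊x.im⌋ / 5, k)) '' {k | cov k (⌊x.re⌋ % 6) (⌊x.im⌋ % 5)} := by
    ext i
    simp only [mem_ofPred_eq, mem_image]
    constructor
    · intro h
      obtain ⟨h1, h2, h3⟩ := TR_interior_imp h
      exact ⟨i.2.2, h3, by rw [← h1, ← h2]⟩
    · rintro ⟨k, hk, rfl⟩
      refine mem_interior_of (isClosed_rect _ _ _ _) (TR_mem_of ⟨rfl, rfl, hk⟩) (hx _)
  rw [this]
  exact encard_cells _ _

/-! ### Test points -/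

theorem test_ne {m s a : ℤ} (hs : s = 1 ∨ s = -1) : (m : ℝ) + s / 10 ≠ a := by
  intro h
  have h1 : (10 * m + s : ℝ) = 10 * a := by linarith
  have h2 : 10 * m + s = 10 * a := by exact_mod_cast h1
  omega

theorem test_ne4 {N s a : ℤ} (hs : s = 1 ∨ s = -1) : (N : ℝ) + 4 * (s / 10) ≠ a := by
  intro h
  have h1 : (10 * N + 4 * s : ℝ) = 10 * a := by linarith
  have h2 : 10 * N + 4 * s = 10 * a := by exact_mod_cast h1
  omega

theorem Test.rect {z : ℂ} (hz : Test z) {a b w h : ℤ} (hm : z ∈ rect a b w h) :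
    (a : ℝ) < z.re ∧ z.re < a + w ∧ (b : ℝ) < z.im ∧ z.im < b + h := by
  obtain ⟨m, n, s, hs, hre, him⟩ := hz
  rw [mem_rect] at hm
  obtain ⟨h1, h2, h3, h4⟩ := hm
  have e1 : z.re ≠ (a : ℝ) := by rw [hre]; exact test_ne hs
  have e2 : z.re ≠ ((a + w : ℤ) : ℝ) := by rw [hre]; exact test_ne hs
  have e3 : z.im ≠ (b : ℝ) := by rw [him]; exact test_ne hs
  have e4 : z.im ≠ ((b + h : ℤ) : ℝ) := by rw [him]; exact test_ne hs
  push_cast at e2 e4
  exact ⟨lt_of_le_of_ne h1 e1.symm, lt_of_le_of_ne h2 e2, lt_of_le_of_ne h3 e3.symm,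
    lt_of_le_of_ne h4 e4⟩

theorem TR_test {z : ℂ} (hz : Test z) (i : ℤ × ℤ × Fin 20) : z ∉ frontier (TR i) := by
  intro hf
  have hcl : IsClosed (TR i) := isClosed_rect _ _ _ _
  have hm : z ∈ TR i := by
    have := frontier_subset_closure hf
    rwa [hcl.closure_eq] at this
  rw [hcl.frontier_eq] at hf
  exact hf.2 (mem_interior_rect.2 (hz.rect hm))

/-- the numbers of the five rectangles of the odd cycle -/
def cyc : Fin 5 → Fin 20 := ![3, 11, 17, 6, 14]
/-- the cells in which consecutive ones meet -/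
def cx : Fin 5 → ℤ := ![0, 0, 0, 2, 2]
/-- the cells in which consecutive ones meet -/
def cy : Fin 5 → ℤ := ![1, 2, 3, 3, 1]

/-- the test points of the cycle -/
noncomputable def pt (r : Fin 5) : ℂ := ⟨(cx r : ℝ) + 1 / 10, (cy r : ℝ) + 1 / 10⟩

theorem pt_test (r : Fin 5) : Test (pt r) := ⟨cx r, cy r, 1, Or.inl rfl, by simp [pt], by simp [pt]⟩

theorem TR_irreducible : ¬ IsReducible TR := by
  refine irreducible_of TR TR_tiling ?_ (fun r => (0, 0, cyc r)) ?_ pt
    (fun r j => TR_test (pt_test r) j) ?_ ?_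
  · rintro ⟨u, v, k⟩
    refine ⟨⟨((6 * u + x0 k : ℤ) : ℝ) + 1 / 10, ((5 * v + y0 k : ℤ) : ℝ) + 1 / 10⟩, ?_, ?_⟩
    · intro j
      exact TR_test ⟨6 * u + x0 k, 5 * v + y0 k, 1, Or.inl rfl, by simp, by simp⟩ j
    · rw [TR, mem_interior_rect]
      rcases dims k with ⟨h1, h2⟩ | ⟨h1, h2⟩ <;> simp only [h1, h2] <;> push_cast <;>
        refine ⟨by linarith, by linarith, by linarith, by linarith⟩
  · intro r h
    have h' : cyc r = cyc (r + 1) := by
      have := congrArg (fun i : ℤ × ℤ × Fin 20 => i.2.2) h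
      exact this
    revert h'
    revert r
    decide
  · intro r
    rw [TR, mem_interior_rect]
    fin_cases r <;> simp [pt, cyc, cx, cy, x0, y0, wd, ht] <;> norm_num
  · intro r
    rw [TR, mem_interior_rect]
    fin_cases r <;> simp [pt, cyc, cx, cy, x0, y0, wd, ht] <;> norm_num

/-! ### Isometries -/

/-- the reflection in the diagonal -/
noncomputable def swapI : ℂ ≃ᵢ ℂ :=
  IsometryEquiv.mk' (fun z => ⟨z.im, z.re⟩) (fun z => ⟨z.im, z.re⟩) (fun _ => rfl)
    (Isometry.of_dist_eq (fun z w => by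
      rw [Complex.dist_eq_re_im, Complex.dist_eq_re_im]
      simp only
      rw [add_comm]))

theorem swapI_apply (z : ℂ) : swapI z = ⟨z.im, z.re⟩ := rfl

theorem TR_mono : IsMonohedral TR (rect 0 0 3 1) := by
  rintro ⟨u, v, k⟩
  set a : ℤ := 6 * u + x0 k with ha
  set b : ℤ := 5 * v + y0 k with hb
  rcases dims k with ⟨h1, h2⟩ | ⟨h1, h2⟩
  · refine ⟨IsometryEquiv.addRight (⟨a, b⟩ : ℂ), ?_⟩
    ext z
    simp only [TR, mem_image, mem_rect, IsometryEquiv.addRight_apply, h1, h2, ← ha, ← hb]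
    constructor
    · rintro ⟨x, ⟨g1, g2, g3, g4⟩, rfl⟩
      simp only [Complex.add_re, Complex.add_im]
      push_cast at *
      refine ⟨by linarith, by linarith, by linarith, by linarith⟩
    · rintro ⟨g1, g2, g3, g4⟩
      refine ⟨z - ⟨a, b⟩, ?_, by simp⟩
      simp only [Complex.sub_re, Complex.sub_im]
      push_cast at *
      refine ⟨by linarith, by linarith, by linarith, by linarith⟩
  · refine ⟨swapI.trans (IsometryEquiv.addRight (⟨a, b⟩ : ℂ)), ?_⟩
    ext z
    simp only [TR, mem_image, mem_rect, IsometryEquiv.trans_apply, IsometryEquiv.addRight_apply,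
      h1, h2, ← ha, ← hb, swapI_apply]
    constructor
    · rintro ⟨x, ⟨g1, g2, g3, g4⟩, rfl⟩
      simp only [Complex.add_re, Complex.add_im]
      push_cast at *
      refine ⟨by linarith, by linarith, by linarith, by linarith⟩
    · rintro ⟨g1, g2, g3, g4⟩
      refine ⟨⟨z.im - b, z.re - a⟩, ?_, ?_⟩
      · simp only
        push_cast at *
        refine ⟨by linarith, by linarith, by linarith, by linarith⟩
      · apply Complex.ext <;> simp

theorem linInd : LinearIndependent ℝ ![(3 : ℂ), I] := by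
  rw [LinearIndependent.pair_iff]
  intro s t h
  have h1 := congrArg Complex.re h
  have h2 := congrArg Complex.im h
  simp at h1 h2
  exact ⟨h1, h2⟩

theorem rect_par : IsParallelogram (rect 0 0 3 1) := by
  refine ⟨0, 3, I, linInd, ?_⟩
  ext z
  rw [mem_rect, mem_ofPred_eq]
  constructor
  · rintro ⟨h1, h2, h3, h4⟩
    push_cast at *
    refine ⟨z.re / 3, z.im, by positivity, by linarith, h3, by linarith, ?_⟩
    apply Complex.ext
    · simp
    · simp
  · rintro ⟨s, t, h1, h2, h3, h4, rfl⟩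
    simp
    refine ⟨h1, by linarith, h3, h4⟩

/-! ### Triangles -/

/-- the lower (`false`) and the upper (`true`) half of the rectangle `[a, a + w] × [b, b + h]`, cut
along the diagonal from `(a, b + h)` to `(a + w, b)` -/
def tri (a b w h : ℤ) : Bool → Set ℂ
  | false => {z | (a : ℝ) ≤ z.re ∧ (b : ℝ) ≤ z.im ∧
      (h : ℝ) * (z.re - a) + (w : ℝ) * (z.im - b) ≤ w * h}
  | true => {z | z.re ≤ (a : ℝ) + w ∧ z.im ≤ (b : ℝ) + h ∧
      (w : ℝ) * h ≤ (h : ℝ) * (z.re - a) + (w : ℝ) * (z.im - b)}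

theorem isClosed_tri (a b w h : ℤ) (β : Bool) : IsClosed (tri a b w h β) := by
  have c1 : Continuous fun z : ℂ => z.re := Complex.continuous_re
  have c2 : Continuous fun z : ℂ => z.im := Complex.continuous_im
  have c3 : Continuous fun z : ℂ => (h : ℝ) * (z.re - a) + (w : ℝ) * (z.im - b) := by fun_prop
  cases β
  · exact (isClosed_le continuous_const c1).inter
      ((isClosed_le continuous_const c2).inter (isClosed_le c3 continuous_const))
  · exact (isClosed_le c1 continuous_const).inter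
      ((isClosed_le c2 continuous_const).inter (isClosed_le continuous_const c3))

/-- strict version of `tri` -/
def stri (a b w h : ℤ) : Bool → Set ℂ
  | false => {z | (a : ℝ) < z.re ∧ (b : ℝ) < z.im ∧
      (h : ℝ) * (z.re - a) + (w : ℝ) * (z.im - b) < w * h}
  | true => {z | z.re < (a : ℝ) + w ∧ z.im < (b : ℝ) + h ∧
      (w : ℝ) * h < (h : ℝ) * (z.re - a) + (w : ℝ) * (z.im - b)}

theorem stri_subset (a b w h : ℤ) (β : Bool) : stri a b w h β ⊆ interior (tri a b w h β) := by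
  have c1 : Continuous fun z : ℂ => z.re := Complex.continuous_re
  have c2 : Continuous fun z : ℂ => z.im := Complex.continuous_im
  have c3 : Continuous fun z : ℂ => (h : ℝ) * (z.re - a) + (w : ℝ) * (z.im - b) := by fun_prop
  apply interior_maximal
  · cases β
    · rintro z ⟨h1, h2, h3⟩
      exact ⟨h1.le, h2.le, h3.le⟩
    · rintro z ⟨h1, h2, h3⟩
      exact ⟨h1.le, h2.le, h3.le⟩
  · cases β
    · exact (isOpen_lt continuous_const c1).inter
        ((isOpen_lt continuous_const c2).inter (isOpen_lt c3 continuous_const))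
    · exact (isOpen_lt c1 continuous_const).inter
        ((isOpen_lt c2 continuous_const).inter (isOpen_lt continuous_const c3))

/-- the family of triangles -/
def TT (i : (ℤ × ℤ × Fin 20) × Bool) : Set ℂ :=
  tri (6 * i.1.1 + x0 i.1.2.2) (5 * i.1.2.1 + y0 i.1.2.2) (wd i.1.2.2) (ht i.1.2.2) i.2

theorem TT_subset (i : (ℤ × ℤ × Fin 20) × Bool) : TT i ⊆ TR i.1 := by
  obtain ⟨⟨u, v, k⟩, β⟩ := i
  intro z hz
  rw [TR, mem_rect]
  simp only [TT] at hz
  rcases dims k with ⟨h1, h2⟩ | ⟨h1, h2⟩ <;> cases β <;> rw [h1, h2] at hz ⊢ <;>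
    obtain ⟨g1, g2, g3⟩ := hz <;> push_cast at * <;>
    refine ⟨by linarith, by linarith, by linarith, by linarith⟩

theorem TR_cases (i : ℤ × ℤ × Fin 20) {z : ℂ} (hz : z ∈ TR i) :
    z ∈ TT (i, false) ∨ z ∈ TT (i, true) := by
  rw [TR, mem_rect] at hz
  obtain ⟨g1, g2, g3, g4⟩ := hz
  rcases le_total ((ht i.2.2 : ℝ) * (z.re - (6 * i.1 + x0 i.2.2 : ℤ)) +
    (wd i.2.2 : ℝ) * (z.im - (5 * i.2.1 + y0 i.2.2 : ℤ))) ((wd i.2.2 : ℝ) * ht i.2.2) with h | h
  · exact Or.inl ⟨g1, g3, h⟩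
  · exact Or.inr ⟨g2, g4, h⟩

theorem TT_disjoint (i : ℤ × ℤ × Fin 20) {z : ℂ} (h0 : z ∈ interior (TT (i, false)))
    (h1 : z ∈ interior (TT (i, true))) : False := by
  have h : z ∈ interior (TT (i, false) ∩ TT (i, true)) := by
    rw [interior_inter]; exact ⟨h0, h1⟩
  rw [mem_interior_iff_mem_nhds, Metric.mem_nhds_iff] at h
  obtain ⟨ε, hε, hb⟩ := h
  have hd : (0 : ℝ) < ht i.2.2 := by
    rcases dims i.2.2 with ⟨_, h⟩ | ⟨_, h⟩ <;> rw [h] <;> norm_num
  have m1 : z ∈ TT (i, false) ∩ TT (i, true) := hb (Metric.mem_ball_self hε)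
  have m2 : z + ((ε / 2 : ℝ) : ℂ) ∈ TT (i, false) ∩ TT (i, true) := by
    apply hb
    rw [Metric.mem_ball, dist_eq_norm, add_sub_cancel_left, Complex.norm_real,
      Real.norm_of_nonneg (by positivity)]
    linarith
  obtain ⟨⟨_, _, a1⟩, ⟨_, _, a2⟩⟩ := m1
  obtain ⟨⟨_, _, b1⟩, ⟨_, _, b2⟩⟩ := m2
  simp only [Complex.add_re, Complex.ofReal_re, Complex.add_im, Complex.ofReal_im] at b1 b2
  have : (0 : ℝ) < ht i.2.2 * (ε / 2) := by positivity
  simp only at a1 a2 b1 b2
  linarith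

theorem TT_tiling : IsMultipleTiling TT 2 := by
  intro x hx
  classical
  let β : Fin 20 → Bool := fun k =>
    if x ∈ interior (TT ((⌊x.re⌋ / 6, ⌊x.im⌋ / 5, k), false)) then false else true
  have key : {i | x ∈ interior (TT i)} = (fun j : ℤ × ℤ × Fin 20 => (j, β j.2.2)) ''
      ((fun k : Fin 20 => (⌊x.re⌋ / 6, ⌊x.im⌋ / 5, k)) '' {k | cov k (⌊x.re⌋ % 6) (⌊x.im⌋ % 5)}) := by
    ext ⟨i, b⟩
    rw [mem_ofPred_eq, Set.image_image, mem_image]
    constructor
    · intro h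
      obtain ⟨h1, h2, h3⟩ := TR_interior_imp (interior_mono (TT_subset (i, b)) h)
      obtain ⟨u, v, k⟩ := i
      simp only at h1 h2 h3
      subst h1 h2
      refine ⟨k, h3, ?_⟩
      have : β k = b := by
        cases b
        · exact if_pos h
        · refine if_neg fun h' => TT_disjoint _ h' h
      simp only [this]
    · rintro ⟨k, hk, hk'⟩
      simp only [Prod.mk.injEq] at hk'
      obtain ⟨rfl, rfl⟩ := hk'
      have hm : x ∈ TR (⌊x.re⌋ / 6, ⌊x.im⌋ / 5, k) := TR_mem_of ⟨rfl, rfl, hk⟩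
      by_cases hf : x ∈ interior (TT ((⌊x.re⌋ / 6, ⌊x.im⌋ / 5, k), false))
      · have : β k = false := if_pos hf
        rw [this]; exact hf
      · have : β k = true := if_neg hf
        rw [this]
        rcases TR_cases _ hm with h | h
        · exact absurd (mem_interior_of (isClosed_tri _ _ _ _ _) h (hx _)) hf
        · exact mem_interior_of (isClosed_tri _ _ _ _ _) h (hx _)
  rw [key]
  have hinj : Function.Injective (fun j : ℤ × ℤ × Fin 20 => (j, β j.2.2)) := by
    intro a b h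
    exact (Prod.mk.injEq _ _ _ _ ▸ h).1
  rw [hinj.injOn.encard_image]
  exact encard_cells _ _

theorem Test.tri {z : ℂ} (hz : Test z) {a b w h : ℤ} (hd : (w = 3 ∧ h = 1) ∨ (w = 1 ∧ h = 3))
    {β : Bool} (hm : z ∈ tri a b w h β) : z ∈ stri a b w h β := by
  obtain ⟨m, n, s, hs, hre, him⟩ := hz
  have e1 : z.re ≠ (a : ℝ) := by rw [hre]; exact test_ne hs
  have e2 : z.re ≠ ((a + w : ℤ) : ℝ) := by rw [hre]; exact test_ne hs
  have e3 : z.im ≠ (b : ℝ) := by rw [him]; exact test_ne hs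
  have e4 : z.im ≠ ((b + h : ℤ) : ℝ) := by rw [him]; exact test_ne hs
  have e5 : (h : ℝ) * (z.re - a) + (w : ℝ) * (z.im - b) ≠ w * h := by
    intro h5
    rw [hre, him] at h5
    have h6 : ((h * (m - a) + w * (n - b) : ℤ) : ℝ) + 4 * ((s : ℝ) / 10) = ((w * h : ℤ) : ℝ) := by
      rcases hd with ⟨rfl, rfl⟩ | ⟨rfl, rfl⟩ <;> push_cast at h5 ⊢ <;> linarith
    exact test_ne4 hs h6
  push_cast at e2 e4
  cases β
  · obtain ⟨h1, h2, h3⟩ := hm
    exact ⟨lt_of_le_of_ne h1 e1.symm, lt_of_le_of_ne h2 e3.symm, lt_of_le_of_ne h3 e5⟩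
  · obtain ⟨h1, h2, h3⟩ := hm
    exact ⟨lt_of_le_of_ne h1 e2, lt_of_le_of_ne h2 e4, lt_of_le_of_ne h3 e5.symm⟩

theorem TT_test {z : ℂ} (hz : Test z) (i : (ℤ × ℤ × Fin 20) × Bool) : z ∉ frontier (TT i) := by
  intro hf
  have hcl : IsClosed (TT i) := isClosed_tri _ _ _ _ _
  have hm : z ∈ TT i := by
    have := frontier_subset_closure hf
    rwa [hcl.closure_eq] at this
  rw [hcl.frontier_eq] at hf
  exact hf.2 (stri_subset _ _ _ _ _ (hz.tri (dims _) hm))

theorem TT_irreducible : ¬ IsReducible TT := by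
  refine irreducible_of TT TT_tiling ?_ (fun r => ((0, 0, cyc r), false)) ?_ pt
    (fun r j => TT_test (pt_test r) j) ?_ ?_
  · rintro ⟨⟨u, v, k⟩, β⟩
    cases β
    · refine ⟨⟨((6 * u + x0 k : ℤ) : ℝ) + 1 / 10, ((5 * v + y0 k : ℤ) : ℝ) + 1 / 10⟩, ?_, ?_⟩
      · intro j
        exact TT_test ⟨6 * u + x0 k, 5 * v + y0 k, 1, Or.inl rfl, by simp, by simp⟩ j
      · apply stri_subset
        rcases dims k with ⟨h1, h2⟩ | ⟨h1, h2⟩ <;> simp only [h1, h2] <;>
          refine ⟨?_, ?_, ?_⟩ <;> push_cast <;> linarith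
    · refine ⟨⟨((6 * u + x0 k + wd k : ℤ) : ℝ) - 1 / 10,
        ((5 * v + y0 k + ht k : ℤ) : ℝ) - 1 / 10⟩, ?_, ?_⟩
      · intro j
        exact TT_test ⟨6 * u + x0 k + wd k, 5 * v + y0 k + ht k, -1, Or.inr rfl, by
          simp; ring, by simp; ring⟩ j
      · apply stri_subset
        rcases dims k with ⟨h1, h2⟩ | ⟨h1, h2⟩ <;> simp only [h1, h2] <;>
          refine ⟨?_, ?_, ?_⟩ <;> push_cast <;> linarith
  · intro r h
    have h' : cyc r = cyc (r + 1) := by
      have := congrArg (fun i : (ℤ × ℤ × Fin 20) × Bool => i.1.2.2) h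
      exact this
    revert h'
    revert r
    decide
  · intro r
    apply stri_subset
    fin_cases r <;> refine ⟨?_, ?_, ?_⟩ <;> simp [pt, cyc, cx, cy, x0, y0, wd, ht] <;> norm_num
  · intro r
    apply stri_subset
    fin_cases r <;> refine ⟨?_, ?_, ?_⟩ <;> simp [pt, cyc, cx, cy, x0, y0, wd, ht] <;> norm_num

theorem TT_mono : IsMonohedral TT (tri 0 0 3 1 false) := by
  rintro ⟨⟨u, v, k⟩, β⟩
  set a : ℤ := 6 * u + x0 k with ha
  set b : ℤ := 5 * v + y0 k with hb
  rcases dims k with ⟨h1, h2⟩ | ⟨h1, h2⟩ <;> cases β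
  · refine ⟨IsometryEquiv.addRight (⟨a, b⟩ : ℂ), ?_⟩
    ext z
    simp only [TT, tri, mem_image, mem_ofPred_eq, IsometryEquiv.addRight_apply, h1, h2, ← ha, ← hb]
    constructor
    · rintro ⟨x, ⟨g1, g2, g3⟩, rfl⟩
      simp only [Complex.add_re, Complex.add_im]
      push_cast at *
      refine ⟨by linarith, by linarith, by linarith⟩
    · rintro ⟨g1, g2, g3⟩
      refine ⟨z - ⟨a, b⟩, ?_, by simp⟩
      simp only [Complex.sub_re, Complex.sub_im]
      push_cast at *
      refine ⟨by linarith, by linarith, by linarith⟩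
  · refine ⟨(IsometryEquiv.neg ℂ).trans (IsometryEquiv.addRight (⟨a + 3, b + 1⟩ : ℂ)), ?_⟩
    ext z
    simp only [TT, tri, mem_image, mem_ofPred_eq, IsometryEquiv.trans_apply,
      IsometryEquiv.neg_apply, IsometryEquiv.addRight_apply, h1, h2, ← ha, ← hb]
    constructor
    · rintro ⟨x, ⟨g1, g2, g3⟩, rfl⟩
      simp only [Complex.add_re, Complex.add_im, Complex.neg_re, Complex.neg_im]
      push_cast at *
      refine ⟨by linarith, by linarith, by linarith⟩
    · rintro ⟨g1, g2, g3⟩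
      refine ⟨⟨a + 3, b + 1⟩ - z, ?_, by simp⟩
      simp only [Complex.sub_re, Complex.sub_im]
      push_cast at *
      refine ⟨by linarith, by linarith, by linarith⟩
  · refine ⟨swapI.trans (IsometryEquiv.addRight (⟨a, b⟩ : ℂ)), ?_⟩
    ext z
    simp only [TT, tri, mem_image, mem_ofPred_eq, IsometryEquiv.trans_apply,
      IsometryEquiv.addRight_apply, h1, h2, ← ha, ← hb, swapI_apply]
    constructor
    · rintro ⟨x, ⟨g1, g2, g3⟩, rfl⟩
      simp only [Complex.add_re, Complex.add_im]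
      push_cast at *
      refine ⟨by linarith, by linarith, by linarith⟩
    · rintro ⟨g1, g2, g3⟩
      refine ⟨⟨z.im - b, z.re - a⟩, ?_, ?_⟩
      · simp only
        push_cast at *
        refine ⟨by linarith, by linarith, by linarith⟩
      · apply Complex.ext <;> simp
  · refine ⟨(swapI.trans (IsometryEquiv.neg ℂ)).trans
      (IsometryEquiv.addRight (⟨a + 1, b + 3⟩ : ℂ)), ?_⟩
    ext z
    simp only [TT, tri, mem_image, mem_ofPred_eq, IsometryEquiv.trans_apply,
      IsometryEquiv.neg_apply, IsometryEquiv.addRight_apply, h1, h2, ← ha, ← hb, swapI_apply]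
    constructor
    · rintro ⟨x, ⟨g1, g2, g3⟩, rfl⟩
      simp only [Complex.add_re, Complex.add_im, Complex.neg_re, Complex.neg_im]
      push_cast at *
      refine ⟨by linarith, by linarith, by linarith⟩
    · rintro ⟨g1, g2, g3⟩
      refine ⟨⟨b + 3 - z.im, a + 1 - z.re⟩, ?_, ?_⟩
      · simp only
        push_cast at *
        refine ⟨by linarith, by linarith, by linarith⟩
      · apply Complex.ext <;> simp

theorem tri_tri : IsTriangle (tri 0 0 3 1 false) := by
  refine ⟨0, 3, I, linInd, ?_⟩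
  ext z
  simp only [tri, mem_ofPred_eq]
  constructor
  · rintro ⟨h1, h2, h3⟩
    push_cast at *
    refine ⟨z.re / 3, z.im, by positivity, h2, by linarith, ?_⟩
    apply Complex.ext
    · simp
    · simp
  · rintro ⟨s, t, h1, h2, h3, rfl⟩
    simp
    refine ⟨h1, h2, by linarith⟩

end Pool.Agent.Q238.DT
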